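import Pool.Agent.Y33.RN.Defs

/-! # Basic facts on the word length `wl` (helper33) -/

set_option autoImplicit false

namespace Pool.Agent.Y33.RN

open Pool.Agent.TH54.BU Pool.Agent.Y33.SM

variable {G : Type} [Group G] {S : Set G}

theorem wl_le {l : List G} (h : ∀ s ∈ l, s ∈ S) : wl S l.prod ≤ l.length :=
  Nat.sInf_le ⟨l, h, rfl, rfl⟩

theorem prod_mem {l : List G} (h : ∀ s ∈ l, s ∈ S) : l.prod ∈ Subgroup.closure S :=
  Subgroup.list_prod_mem _ fun s hs => Subgroup.subset_closure (h s hs)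

theorem exists_word (hS : ∀ s ∈ S, s⁻¹ ∈ S) {g : G} (hg : g ∈ Subgroup.closure S) :
    ∃ l : List G, (∀ s ∈ l, s ∈ S) ∧ l.prod = g := by
  refine Subgroup.closure_induction (p := fun g _ => ∃ l : List G, (∀ s ∈ l, s ∈ S) ∧ l.prod = g)
    ?_ ⟨[], by simp, rfl⟩ ?_ ?_ hg
  · intro x hx
    exact ⟨[x], by simpa using hx, by simp⟩
  · rintro _ _ _ _ ⟨l, h1, rfl⟩ ⟨l', h2, rfl⟩
    refine ⟨l ++ l', ?_, List.prod_append⟩
    intro s hs
    rcases List.mem_append.1 hs with h | h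
    · exact h1 s h
    · exact h2 s h
  · rintro _ _ ⟨l, h1, rfl⟩
    refine ⟨(l.map (fun x => x⁻¹)).reverse, ?_, (List.prod_inv_reverse l).symm⟩
    intro s hs
    rw [List.mem_reverse, List.mem_map] at hs
    obtain ⟨a, ha, rfl⟩ := hs
    exact hS a (h1 a ha)

theorem exists_min (hS : ∀ s ∈ S, s⁻¹ ∈ S) {g : G} (hg : g ∈ Subgroup.closure S) :
    ∃ l : List G, (∀ s ∈ l, s ∈ S) ∧ l.prod = g ∧ l.length = wl S g := by
  obtain ⟨l, h1, h2⟩ := exists_word hS hg
  have hne : {k | ∃ l : List G, (∀ s ∈ l, s ∈ S) ∧ l.prod = g ∧ l.length = k}.Nonempty :=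
    ⟨_, l, h1, h2, rfl⟩
  exact Nat.sInf_mem hne

theorem wl_mul (hS : ∀ s ∈ S, s⁻¹ ∈ S) {g h : G} (hg : g ∈ Subgroup.closure S)
    (hh : h ∈ Subgroup.closure S) : wl S (g * h) ≤ wl S g + wl S h := by
  obtain ⟨l, h1, h2, h3⟩ := exists_min hS hg
  obtain ⟨l', h1', h2', h3'⟩ := exists_min hS hh
  have := wl_le (S := S) (l := l ++ l') (by
    intro s hs
    rcases List.mem_append.1 hs with h | h
    · exact h1 s h
    · exact h1' s h)
  rwa [List.prod_append, h2, h2', List.length_append, h3, h3'] at this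

theorem wl_inv (hS : ∀ s ∈ S, s⁻¹ ∈ S) {g : G} (hg : g ∈ Subgroup.closure S) :
    wl S g⁻¹ = wl S g := by
  have key : ∀ g ∈ Subgroup.closure S, wl S g⁻¹ ≤ wl S g := by
    intro g hg
    obtain ⟨l, h1, h2, h3⟩ := exists_min hS hg
    have := wl_le (S := S) (l := (l.map (fun x => x⁻¹)).reverse) (by
      intro s hs
      rw [List.mem_reverse, List.mem_map] at hs
      obtain ⟨a, ha, rfl⟩ := hs
      exact hS a (h1 a ha))
    rwa [← List.prod_inv_reverse, h2, List.length_reverse, List.length_map, h3] at this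
  refine le_antisymm (key g hg) ?_
  have := key _ (Subgroup.inv_mem _ hg)
  rwa [inv_inv] at this

theorem wl_one : wl S (1 : G) = 0 := Nat.le_zero.1 (wl_le (S := S) (l := []) (by simp))

theorem eq_one_of_wl (hS : ∀ s ∈ S, s⁻¹ ∈ S) {g : G} (hg : g ∈ Subgroup.closure S)
    (h : wl S g = 0) : g = 1 := by
  obtain ⟨l, _, h2, h3⟩ := exists_min hS hg
  rw [h, List.length_eq_zero_iff] at h3
  rw [← h2, h3]
  rfl

/-- paths with steps in `S` -/
theorem path_mem {γ : ℕ → G} {n : ℕ} (h : ∀ i, i < n → (γ i)⁻¹ * γ (i + 1) ∈ S) :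
    ∀ a k : ℕ, a + k ≤ n → (γ a)⁻¹ * γ (a + k) ∈ Subgroup.closure S ∧
      wl S ((γ a)⁻¹ * γ (a + k)) ≤ k := by
  intro a k
  have key : a + k ≤ n → ∃ l : List G, (∀ s ∈ l, s ∈ S) ∧ l.prod = (γ a)⁻¹ * γ (a + k) ∧
      l.length = k := by
    induction k with
    | zero => exact fun _ => ⟨[], by simp, by simp, rfl⟩
    | succ k ih =>
      intro hk
      obtain ⟨l, h1, h2, h3⟩ := ih (by omega)
      refine ⟨l ++ [(γ (a + k))⁻¹ * γ (a + k + 1)], ?_, ?_, ?_⟩
      · intro s hs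
        rcases List.mem_append.1 hs with h' | h'
        · exact h1 s h'
        · rw [List.mem_singleton] at h'
          subst h'
          exact h (a + k) (by omega)
      · rw [List.prod_append, h2, List.prod_singleton]
        show (γ a)⁻¹ * γ (a + k) * ((γ (a + k))⁻¹ * γ (a + k + 1)) = (γ a)⁻¹ * γ (a + k + 1)
        group
      · rw [List.length_append, h3]
        rfl
  intro hk
  obtain ⟨l, h1, h2, h3⟩ := key hk
  rw [← h2]
  exact ⟨prod_mem h1, (wl_le h1).trans h3.le⟩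

/-- subpaths of geodesics are geodesic -/
theorem HGeo.eq (hS : ∀ s ∈ S, s⁻¹ ∈ S) {γ : ℕ → G} {l : ℕ} (h : HGeo S γ l) {i j : ℕ}
    (hij : i ≤ j) (hj : j ≤ l) : wl S ((γ i)⁻¹ * γ j) = j - i := by
  obtain ⟨k, rfl⟩ := Nat.exists_eq_add_of_le hij
  have h1 := path_mem h.1 0 i (by omega)
  have h2 := path_mem h.1 i k hj
  have h3 := path_mem h.1 (i + k) (l - (i + k)) (by omega)
  rw [Nat.add_sub_cancel' hj] at h3
  rw [zero_add] at h1
  have h4 := wl_mul hS h1.1 h2.1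
  have h5 := wl_mul hS (Subgroup.mul_mem _ h1.1 h2.1) h3.1
  have e : (γ 0)⁻¹ * γ i * ((γ i)⁻¹ * γ (i + k)) * ((γ (i + k))⁻¹ * γ l) = (γ 0)⁻¹ * γ l := by
    group
  rw [e, h.2] at h5
  omega

theorem len_le_wl (w : GH G) (hS : ∀ s ∈ S, s⁻¹ ∈ S) (h1 : ∀ s ∈ S, w.len s ≤ 1) {g : G}
    (hg : g ∈ Subgroup.closure S) : w.len g ≤ wl S g := by
  obtain ⟨l, h2, h3, h4⟩ := exists_min hS hg
  have key : ∀ l : List G, (∀ s ∈ l, s ∈ S) → w.len l.prod ≤ l.length := by
    intro l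
    induction l with
    | nil => intro _; simp [w.len_one]
    | cons a l ih =>
      intro h2
      rw [List.prod_cons, List.length_cons]
      have i1 := w.len_mul a l.prod
      have i2 := ih (fun s hs => h2 s (List.mem_cons_of_mem _ hs))
      have i3 := h1 a (h2 a List.mem_cons_self)
      omega
  have := key l h2
  rwa [h3, h4] at this

section quot

variable {M : Subgroup G} [M.Normal]

theorem im_inv (hS : ∀ s ∈ S, s⁻¹ ∈ S) : ∀ s ∈ im M S, s⁻¹ ∈ im M S := by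
  rintro _ ⟨s, hs, rfl⟩
  exact ⟨s⁻¹, hS s hs, rfl⟩

theorem lift_word {l : List (G ⧸ M)} (h : ∀ s ∈ l, s ∈ im M S) :
    ∃ l' : List G, (∀ s ∈ l', s ∈ S) ∧ ((l'.prod : G) : G ⧸ M) = l.prod ∧
      l'.length = l.length := by
  induction l with
  | nil => exact ⟨[], by simp, rfl, rfl⟩
  | cons a l ih =>
    obtain ⟨l', h1, h2, h3⟩ := ih (fun s hs => h s (List.mem_cons_of_mem _ hs))
    obtain ⟨s, hs, rfl⟩ := h a List.mem_cons_self
    refine ⟨s :: l', ?_, ?_, ?_⟩
    · intro s' hs'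
      rcases List.mem_cons.1 hs' with rfl | h'
      · exact hs
      · exact h1 s' h'
    · rw [List.prod_cons, List.prod_cons, ← h2]
      rfl
    · rw [List.length_cons, List.length_cons, h3]

theorem im_word {l : List G} (h : ∀ s ∈ l, s ∈ S) :
    (∀ s ∈ l.map (fun g : G => (g : G ⧸ M)), s ∈ im M S) ∧
      (l.map (fun g : G => (g : G ⧸ M))).prod = (l.prod : G) := by
  refine ⟨?_, ?_⟩
  · intro s hs
    obtain ⟨a, ha, rfl⟩ := List.mem_map.1 hs
    exact ⟨a, h a ha, rfl⟩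
  · have := List.prod_hom l (QuotientGroup.mk' M)
    exact this

theorem closure_im : Subgroup.closure (im M S) = (Subgroup.closure S).map (QuotientGroup.mk' M) := by
  rw [MonoidHom.map_closure]
  rfl

theorem mem_im {g : G} (hg : g ∈ Subgroup.closure S) :
    (g : G ⧸ M) ∈ Subgroup.closure (im M S) := by
  rw [closure_im]
  exact ⟨g, hg, rfl⟩

theorem wl_im_le (hS : ∀ s ∈ S, s⁻¹ ∈ S) {g : G} (hg : g ∈ Subgroup.closure S) :
    wl (im M S) (g : G ⧸ M) ≤ wl S g := by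
  obtain ⟨l, h1, h2, h3⟩ := exists_min hS hg
  have h4 := im_word (M := M) h1
  have := wl_le h4.1
  rwa [h4.2, h2, List.length_map, h3] at this

theorem wl_im_lift (hS : ∀ s ∈ S, s⁻¹ ∈ S) {q : G ⧸ M} (hq : q ∈ Subgroup.closure (im M S)) :
    ∃ g ∈ Subgroup.closure S, (g : G ⧸ M) = q ∧ wl S g = wl (im M S) q := by
  obtain ⟨l, h1, h2, h3⟩ := exists_min (im_inv hS) hq
  obtain ⟨l', k1, k2, k3⟩ := lift_word h1
  refine ⟨l'.prod, prod_mem k1, k2.trans h2, le_antisymm ?_ ?_⟩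
  · exact (wl_le k1).trans (k3.trans h3).le
  · have := wl_im_le (M := M) hS (prod_mem k1)
    rwa [k2, h2] at this

/-- lifting paths -/
theorem lift_path (γ : ℕ → G ⧸ M) (n : ℕ) (h : ∀ i, i < n → (γ i)⁻¹ * γ (i + 1) ∈ im M S) :
    ∃ γ' : ℕ → G, (∀ i, i ≤ n → (γ' i : G ⧸ M) = γ i) ∧
      ∀ i, i < n → (γ' i)⁻¹ * γ' (i + 1) ∈ S := by
  induction n with
  | zero =>
    obtain ⟨g, hg⟩ := QuotientGroup.mk_surjective (γ 0)
    refine ⟨fun _ => g, ?_, fun i hi => absurd hi (Nat.not_lt_zero _)⟩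
    intro i hi
    rw [Nat.le_zero.1 hi]
    exact hg
  | succ n ih =>
    obtain ⟨γ', h1, h2⟩ := ih (fun i hi => h i (by omega))
    obtain ⟨s, hs, hs'⟩ := h n (by omega)
    refine ⟨fun i => if i ≤ n then γ' i else γ' n * s, ?_, ?_⟩
    · intro i hi
      by_cases hin : i ≤ n
      · simp only [if_pos hin]
        exact h1 i hin
      · have e : i = n + 1 := by omega
        subst e
        simp only [if_neg hin]
        have h3 := h1 n le_rfl
        have hs'' : (s : G ⧸ M) = (γ n)⁻¹ * γ (n + 1) := hs'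
        rw [QuotientGroup.mk_mul, h3, hs'']
        group
    · intro i hi
      by_cases hin : i + 1 ≤ n
      · simp only [if_pos hin, if_pos (show i ≤ n by omega)]
        exact h2 i (by omega)
      · have e : i = n := by omega
        subst e
        simp only [if_pos le_rfl, if_neg hin]
        rwa [inv_mul_cancel_left]

end quot

end Pool.Agent.Y33.RN
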