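import Pool.Agent.Y33.RN.Defs
import Pool.Agent.Y33.SM.Ext

/-!
# Normal subgroups with empty Morse boundary: statements of the jobs (helper33, project RN,
MP_b587bd_al)
-/

set_option autoImplicit false

namespace Pool.Agent.Y33.RN

open Pool.Agent.TH54.BU Pool.Agent.Y33.SM Pool.Agent.H17R2 Pool.Agent.H659R3.MorseLim
  Pool.Agent.Y33.LG

/-! ### The base group -/

/-- job RB1: the relators -/
def S_RB1 : Prop := ∀ K : ℤ, 20 ≤ K → ∃ W : Words (Fin 5), RW K W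

/-- job RB2: the cone metric -/
def S_RB2 : Prop := ∃ R : ℕ, ∀ W : Words (Fin 5), ∃ E : GH F5, CE W E R

/-- job RB3: geodesics of the cone metric -/
def S_RB3 : Prop := ∀ R : ℕ, ∃ Θ : ℕ, ∀ (K : ℤ) (W : Words (Fin 5)) (E : GH F5), RW K W →
  CE W E R → JP W E Θ

/-- job RB4: the quotient of the cone metric is hyperbolic -/
def S_RB4 : Prop := ∀ Θ : ℕ, ∃ K0 : ℤ, ∀ K : ℤ, K0 ≤ K → ∀ (W : Words (Fin 5)) (E : GH F5)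
  (R : ℕ), RW K W → CE W E R → JP W E Θ → ∃ Q : GH (F5 ⧸ W.toFam.N), QL E W.toFam.N Q

/-- job RB5: the powers of `t`, `b`, `c` are geodesic -/
def S_RB5 : Prop := ∀ Θ : ℕ, ∃ K0 : ℤ, ∀ K : ℤ, K0 ≤ K → ∀ (W : Words (Fin 5)) (E : GH F5)
  (R : ℕ) (Q : GH (F5 ⧸ W.toFam.N)), RW K W → CE W E R → JP W E Θ → QL E W.toFam.N Q →
    ∀ i : Fin 5, (i : ℕ) ≤ 2 → Str Q ((FreeGroup.of i : F5) : F5 ⧸ W.toFam.N)

/-- job RB6: finite balls, and no torsion -/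
def S_RB6 : Prop := ∀ (K : ℤ) (W : Words (Fin 5)) (E : GH F5) (R : ℕ)
  (Q : GH (F5 ⧸ W.toFam.N)), RW K W → CE W E R → QL E W.toFam.N Q →
    (∀ n : ℕ, {q | Q.len q ≤ n}.Finite) ∧ ∀ q : F5 ⧸ W.toFam.N, IsOfFinOrder q → q = 1

/-- job RB7: the kernel of the homomorphism to the integers -/
def S_RB7 : Prop := ∀ (K : ℤ) (W : Words (Fin 5)) (E : GH F5) (R : ℕ)
  (Q : GH (F5 ⧸ W.toFam.N)), RW K W → CE W E R → QL E W.toFam.N Q →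
    ∃ f : F5 ⧸ W.toFam.N →* Multiplicative ℤ, (∀ g : F5, f (g : F5 ⧸ W.toFam.N) = ft g) ∧
      (∀ q, (Multiplicative.toAdd (f q)).natAbs ≤ Q.len q) ∧
      (∀ q, f q = 1 ↔ q ∈ Subgroup.closure (im W.toFam.N S0)) ∧
      ∀ s ∈ im W.toFam.N S0, Q.len s ≤ 1

/-- job RB8: the powers of `b` and `c` are not conjugate -/
def S_RB8 : Prop := ∃ K0 : ℤ, ∀ K : ℤ, K0 ≤ K → ∀ W : Words (Fin 5), RW K W →
  NC ((FreeGroup.of 2 : F5) : F5 ⧸ W.toFam.N) ((FreeGroup.of 1 : F5) : F5 ⧸ W.toFam.N)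

/-- the base group exists -/
def S_RB : Prop := ∃ (G : Type) (_ : Group G) (w : GH G) (f : G →* Multiplicative ℤ) (S : Set G)
  (t c b : G), Rd w f S t c b

/-! ### The step -/

/-- job CUT2: divergence in the direction of `h` in the quotient -/
def S_CUT2 : Prop := ∀ (G : Type) [Group G] (w : GH G) (h : G) (e : ℕ) (k : G → ℤ) (C r : ℕ),
  NW w → Str w h → Pj w h e k → ∃ D0 κ0 q : ℕ, ∀ κ : ℕ, κ0 ≤ κ → ∀ (A n : ℕ) (F : GH G)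
    (L : LS F 1100 234003 2) (X : Set G) (M : Subgroup G) [M.Normal], q * A ≤ κ →
      Ctx w κ n L X M → (∀ x ∈ X, HF k A x) → ∀ w' : GH (G ⧸ M), QL w M w' → ∀ t1 : ℕ,
        Cut w'.d (h : G ⧸ M) C r D0 t1

/-- job HPR: paths in the cosets of the kernel have small projections to the line of `t` -/
def S_HPR : Prop := ∀ (G : Type) [Group G] (w : GH G) (t : G) (e : ℕ) (k : G → ℤ)
  (f : G →* Multiplicative ℤ), Pj w t e k → f t = Multiplicative.ofAdd 1 →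
    (∀ g : G, (Multiplicative.toAdd (f g)).natAbs ≤ w.len g) → ∀ q : ℕ, ∃ B : ℕ,
      ∀ (σ : ℕ → G) (L : ℕ), (∀ i, i < L → w.d (σ i) (σ (i + 1)) ≤ 1 ∧ f (σ (i + 1)) = f (σ i)) →
        q * (k (σ 0) - k (σ L)).natAbs ≤ L + B

/-- job CHF2: small projections to the line of `t` -/
def S_CHF2 : Prop := ∀ (G : Type) [Group G] (w : GH G) (t c b : G) (e : ℕ) (k : G → ℤ),
  NW w → Str w t → Str w c → Str w b → NC t b → Pj w t e k → ∀ C E : ℕ, ∃ B : ℕ,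
    ∀ κ A : ℕ, B ≤ A → B + 100 * A ≤ κ → ∀ u x0 : G, Zig w c b C κ u x0 →
      (∀ g : G, (k g - k (g * u)).natAbs ≤ A) → ∀ x v : G, x0 = v * x * v⁻¹ →
        (∀ p : ℤ, ∃ a : ℤ, w.d (Vx u x0 a) (v * x ^ p) + w.d (v * x ^ p) (Vx u x0 (a + 1)) ≤
          w.d (Vx u x0 a) (Vx u x0 (a + 1)) + E) → HF k (10 * A) x

/-- job HCAP: the relators which capture the element `u` of the kernel -/
def S_HCAP : Prop := ∀ (G : Type) [Group G] (w : GH G) (f : G →* Multiplicative ℤ) (S : Set G)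
  (t c b : G) (e : ℕ) (k : G → ℤ), Rd w f S t c b → Pj w t e k → ∃ C : ℕ, ∀ q : ℕ, 1 ≤ q →
    ∃ K0 : ℕ, ∀ K : ℕ, K0 ≤ K → ∀ u ∈ Subgroup.closure S, wl S u = K → ∃ x0 x v : G,
      x0 = v * x * v⁻¹ ∧ w.len v ≤ 20 * K ∧ Prim x ∧ w.CMin x ∧ 2 * K ≤ w.len x ∧
      w.len x ≤ 10 * K ∧ HF k (K / q) x ∧ Hz w S C K u x0

/-- job RING: relator circles in the quotient -/
def S_RING : Prop := ∀ (G : Type) [Group G] (w : GH G) (κ n : ℕ) (F : GH G)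
  (L : LS F 1100 234003 2) (X : Set G) (M : Subgroup G) [M.Normal], Ctx w κ n L X M →
    ∀ w' : GH (G ⧸ M), QL w M w' → ∀ x ∈ X, ∀ (g1 g2 : G) (j : ℤ), w.len g1 ≤ 100 * κ →
      w.len g2 ≤ 100 * κ → 2 * |j| ≤ n + 100 →
        w.len (g1 * x ^ j * g2) ≤ w'.len ((g1 * x ^ j * g2 : G) : G ⧸ M) ∨
          n * κ ≤ 100 * w'.len ((g1 * x ^ j * g2 : G) : G ⧸ M)

/-- job HD1: the detour -/
def S_HD1 : Prop := ∀ C : ℕ, ∃ K0 : ℕ, ∀ (K n : ℕ) (G : Type) [Group G] (w : GH G) (S : Set G)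
  (M : Subgroup G) [M.Normal] (w' : GH (G ⧸ M)) (u x0 : G), K0 ≤ K → 10 ^ 6 ≤ n →
    QL w M w' → (∀ s ∈ S, s⁻¹ ∈ S ∧ w.len s ≤ 1) → Hz w S C K u x0 → x0 ^ n ∈ M →
    (∀ m ∈ M, m ≠ 1 → n * K ≤ 10 * w.len m) →
    (∀ (g1 g2 : G) (j : ℤ), w.len g1 ≤ 50 * K → w.len g2 ≤ 50 * K → 2 * |j| ≤ n + 100 →
      w.len (g1 * x0 ^ j * g2) ≤ w'.len ((g1 * x0 ^ j * g2 : G) : G ⧸ M) ∨
        n * K ≤ 100 * w'.len ((g1 * x0 ^ j * g2 : G) : G ⧸ M)) →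
    ∃ (σ : ℕ → G ⧸ M) (N : ℕ), N ≤ 20 * n * K ∧ 2 * n * K ≤ N ∧ σ 0 = (u : G ⧸ M) ∧ σ N = 1 ∧
      (∀ k, k < N → (σ k)⁻¹ * σ (k + 1) ∈ im M S) ∧
      (∀ k k', k ≤ k' → k' ≤ N → k' - k ≤ 1000 * n * wl (im M S) ((σ k)⁻¹ * σ k')) ∧
      ∀ k, 100 * K ≤ k → k + 100 * K ≤ N → 3 * K ≤ wl (im M S) (σ k)

/-- job HD2: depth of the detour -/
def S_HD2 : Prop := ∀ r n : ℕ, 1000 ≤ n → ∃ K0 : ℕ, ∀ (K : ℕ) (G : Type) [Group G] (S : Set G)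
  (u : G) (σ : ℕ → G) (N : ℕ), K0 ≤ K → (∀ s ∈ S, s⁻¹ ∈ S) → N ≤ 20 * n * K → 2 * n * K ≤ N →
    σ 0 = u → σ N = 1 → (∀ k, k < N → (σ k)⁻¹ * σ (k + 1) ∈ S) →
    (∀ k k', k ≤ k' → k' ≤ N → k' - k ≤ 1000 * n * wl S ((σ k)⁻¹ * σ k')) →
    (∀ k, 100 * K ≤ k → k + 100 * K ≤ N → 3 * K ≤ wl S (σ k)) →
    ∀ γ : ℕ → G, (∀ i, i < K → (γ i)⁻¹ * γ (i + 1) ∈ S) → (γ 0)⁻¹ * γ K = u →
      HDet S (1000 * n) r (20 * n * K) γ K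

/-- the step of the construction -/
def S_RSTEP : Prop := ∃ Λ : ℕ, ∀ (G : Type) [Group G] (w : GH G) (f : G →* Multiplicative ℤ)
  (S : Set G) (t c b : G), Rd w f S t c b → ∀ C r : ℕ, ∃ D0 : ℕ, ∀ R : ℕ,
    ∃ (M : Subgroup G) (_ : M.Normal) (w' : GH (G ⧸ M)) (f' : G ⧸ M →* Multiplicative ℤ)
      (s : ℕ), QL w M w' ∧ (∀ g : G, f' (g : G ⧸ M) = f g) ∧
      Rd w' f' (im M S) (t : G ⧸ M) (c : G ⧸ M) (b : G ⧸ M) ∧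
      (∀ g : G, w.len g ≤ R → w'.len (g : G ⧸ M) = w.len g) ∧
      (∀ t1 : ℕ, Cut w'.d (t : G ⧸ M) C r D0 t1) ∧
      ∀ (γ : ℕ → G ⧸ M) (l : ℕ), HGeo (im M S) γ l → s ≤ l → HDet (im M S) Λ R s γ l

/-! ### The limit group -/

/-- job RSTF: the step for the quotients of a fixed group -/
def S_RSTF : Prop := ∃ Λ : ℕ, ∀ (B : Type) [Group B] (w0 : GH B) (f0 : B →* Multiplicative ℤ)
  (S : Set B) (t c b : B) (N : Subgroup B) [N.Normal], Lev w0 f0 S t c b N → ∀ C r : ℕ,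
    ∃ D0 : ℕ, ∀ R : ℕ, ∃ (N' : Subgroup B) (_ : N'.Normal) (s : ℕ), N ≤ N' ∧
      Lev w0 f0 S t c b N' ∧ (∀ g : B, qd w0 N 1 g ≤ R → qd w0 N' 1 g = qd w0 N 1 g) ∧
      (∀ t1 : ℕ, Cut (qd w0 N') (t : B ⧸ N') C r D0 t1) ∧
      ∀ (γ : ℕ → B ⧸ N') (l : ℕ), HGeo (im N' S) γ l → s ≤ l → HDet (im N' S) Λ R s γ l

/-- job RTOW: the limit group -/
def S_RT : Prop := ∃ (G : Type) (_ : Group G) (A : FinGen G) (S : Set G) (t : G) (Λ : ℕ),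
  (Subgroup.closure S).Normal ∧ Infinite (Subgroup.closure S) ∧ S.Finite ∧
  (∀ s ∈ S, s⁻¹ ∈ S) ∧ (∀ k : ℕ, A.len (t ^ k) = k) ∧
  (∀ C r : ℕ, ∃ D0 : ℕ, ∀ t1 : ℕ, D0 ≤ t1 → Cut A.dist t C r t1 t1) ∧
  ∀ r : ℕ, ∃ s : ℕ, ∀ (γ : ℕ → G) (l : ℕ), HGeo S γ l → s ≤ l → HDet S Λ r s γ l

/-! ### The frozen statement -/

/-- `γ` is a geodesic ray and `S` generates the group -/
def GRay {G : Type} [Group G] (S : Finset G) (γ : ℕ → G) : Prop :=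
  ∀ m n : ℕ, (((SimpleGraph.fromRel (fun x y : G => x⁻¹ * y ∈ S)).dist (γ m) (γ n) : ℕ) : ℝ)
    = |(m : ℝ) - (n : ℝ)|

/-- `γ` is Morse -/
def GMorse {G : Type} [Group G] (S : Finset G) (γ : ℕ → G) : Prop :=
  ∃ N : ℝ → ℝ → ℝ, ∀ K C : ℝ, 1 ≤ K → 0 ≤ C →
    ∀ (L : ℕ) (q : ℕ → G),
      (∀ i j : ℕ, i ≤ L → j ≤ L →
        |(i : ℝ) - (j : ℝ)| / K - C
            ≤ (((SimpleGraph.fromRel (fun x y : G => x⁻¹ * y ∈ S)).dist (q i) (q j) : ℕ) : ℝ) ∧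
        (((SimpleGraph.fromRel (fun x y : G => x⁻¹ * y ∈ S)).dist (q i) (q j) : ℕ) : ℝ)
            ≤ K * |(i : ℝ) - (j : ℝ)| + C) →
      (∃ a : ℕ, q 0 = γ a) → (∃ b : ℕ, q L = γ b) →
      ∀ i : ℕ, i ≤ L → ∃ t : ℕ,
        (((SimpleGraph.fromRel (fun x y : G => x⁻¹ * y ∈ S)).dist (q i) (γ t) : ℕ) : ℝ)
          ≤ N K C

/-- job FT0: the graph distance is the word distance -/
def S_FT0 : Prop := ∀ (G : Type) [Group G] (T : Finset G) (A : FinGen G), A.S = (T : Set G) →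
  ∀ x y : G, (SimpleGraph.fromRel (fun x y : G => x⁻¹ * y ∈ T)).dist x y = A.dist x y

/-- job FT1: superlinear divergence gives a Morse ray -/
def S_FT1 : Prop := ∀ (G : Type) [Group G] (A : FinGen G) (t : G),
  (∀ k : ℕ, A.len (t ^ k) = k) →
  (∀ C r : ℕ, ∃ D0 : ℕ, ∀ t1 : ℕ, D0 ≤ t1 → Cut A.dist t C r t1 t1) →
    ∃ T : Finset G, Subgroup.closure (T : Set G) = ⊤ ∧ ∃ γ : ℕ → G, GRay T γ ∧ GMorse T γ

/-- job FT2: the subgroup generated by `S` is Morse limited -/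
def S_FT2 : Prop := ∀ (G : Type) [Group G] (S : Set G) (Λ : ℕ), S.Finite →
  (∀ s ∈ S, s⁻¹ ∈ S) →
  (∀ r : ℕ, ∃ s : ℕ, ∀ (γ : ℕ → G) (l : ℕ), HGeo S γ l → s ≤ l → HDet S Λ r s γ l) →
    ∃ A : FinGen (Subgroup.closure S), MorseLimited (Cay A)

/-- job FT3: Morse limited groups have no Morse rays -/
def S_FT3 : Prop := ∀ (G : Type) [Group G] (A : FinGen G), MorseLimited (Cay A) →
  ∀ T : Finset G, Subgroup.closure (T : Set G) = ⊤ → ¬ ∃ γ : ℕ → G, GRay T γ ∧ GMorse T γ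

end Pool.Agent.Y33.RN
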