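import Pool.Agent.Y33.RN.Fin2
import Pool.Agent.Y893.RN.RB1
import Pool.Agent.Y33.RN.Rb8
import Pool.Agent.Y697.RN.Hcap
import Pool.Agent.Y470.RN.Rstf
import Pool.Agent.Y171.RN.RB5
import Pool.Agent.Y944.RN.CUT2
import Pool.Agent.Y409.RN.Chf2
import Pool.Agent.Y944.RN.RING
import Pool.Agent.Y521.RN.Hd1

/-! # Normal subgroups with empty Morse boundary: final theorem (helper33) -/

set_option autoImplicit false

namespace Pool.Agent.Y33.RN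

open Pool.Agent.TH54.BU Pool.Agent.Y33.SM Pool.Agent.H17R2 Pool.Agent.H659R3.MorseLim
  Pool.Agent.Y33.LG

theorem final :
    ∃ (G : Type) (_ : Group G) (H : Subgroup G),
      H.Normal ∧ Infinite ↥H ∧ Group.FG ↥H ∧
      (∃ S : Finset G, Subgroup.closure (S : Set G) = ⊤ ∧
        ∃ γ : ℕ → G,
          (∀ m n : ℕ,
            (((SimpleGraph.fromRel (fun x y : G => x⁻¹ * y ∈ S)).dist (γ m) (γ n) : ℕ) : ℝ)
              = |(m : ℝ) - (n : ℝ)|) ∧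
          ∃ N : ℝ → ℝ → ℝ, ∀ K C : ℝ, 1 ≤ K → 0 ≤ C →
            ∀ (L : ℕ) (q : ℕ → G),
              (∀ i j : ℕ, i ≤ L → j ≤ L →
                |(i : ℝ) - (j : ℝ)| / K - C
                    ≤ (((SimpleGraph.fromRel (fun x y : G => x⁻¹ * y ∈ S)).dist (q i) (q j) : ℕ) : ℝ) ∧
                (((SimpleGraph.fromRel (fun x y : G => x⁻¹ * y ∈ S)).dist (q i) (q j) : ℕ) : ℝ)
                    ≤ K * |(i : ℝ) - (j : ℝ)| + C) →
              (∃ a : ℕ, q 0 = γ a) → (∃ b : ℕ, q L = γ b) →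
              ∀ i : ℕ, i ≤ L → ∃ t : ℕ,
                (((SimpleGraph.fromRel (fun x y : G => x⁻¹ * y ∈ S)).dist (q i) (γ t) : ℕ) : ℝ)
                  ≤ N K C) ∧
      (∀ S : Finset ↥H, Subgroup.closure (S : Set ↥H) = ⊤ →
        ¬ ∃ γ : ℕ → ↥H,
          (∀ m n : ℕ,
            (((SimpleGraph.fromRel (fun x y : ↥H => x⁻¹ * y ∈ S)).dist (γ m) (γ n) : ℕ) : ℝ)
              = |(m : ℝ) - (n : ℝ)|) ∧
          ∃ N : ℝ → ℝ → ℝ, ∀ K C : ℝ, 1 ≤ K → 0 ≤ C →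
            ∀ (L : ℕ) (q : ℕ → ↥H),
              (∀ i j : ℕ, i ≤ L → j ≤ L →
                |(i : ℝ) - (j : ℝ)| / K - C
                    ≤ (((SimpleGraph.fromRel (fun x y : ↥H => x⁻¹ * y ∈ S)).dist (q i) (q j) : ℕ) : ℝ) ∧
                (((SimpleGraph.fromRel (fun x y : ↥H => x⁻¹ * y ∈ S)).dist (q i) (q j) : ℕ) : ℝ)
                    ≤ K * |(i : ℝ) - (j : ℝ)| + C) →
              (∃ a : ℕ, q 0 = γ a) → (∃ b : ℕ, q L = γ b) →
              ∀ i : ℕ, i ≤ L → ∃ t : ℕ,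
                (((SimpleGraph.fromRel (fun x y : ↥H => x⁻¹ * y ∈ S)).dist (q i) (γ t) : ℕ) : ℝ)
                  ≤ N K C) := by
  have hA : S_ACY := Acy.t
  have hmin : S_MIN := Pool.Agent.Y688.SM.t0
  have hov : S_OV := Pool.Agent.Y688.SM.t1
  have hstr : S_STR := Pool.Agent.Y688.SM.t2 hov
  have hcap : S_HCAP := Pool.Agent.Y697.RN.Hcap.t hA (Pool.Agent.Y905.SM.t_crn hA)
    (Pool.Agent.Y186.SM.Zig.t (Pool.Agent.Y905.SM.t_crn hA) hA) (Pool.Agent.Y179.SM.Cpr.t hA)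
    Pool.Agent.Y179.SM.Ccm.t (Pool.Agent.Y409.RN.Chf2.t hA) hpr
  exact finalX Pool.Agent.Y893.RN.t Pool.Agent.Y171.RN.RB5.t RB8.t
    (Pool.Agent.Y944.RN.CUT2.t hstr hmin hov) hcap (Pool.Agent.Y944.RN.RING.t hmin)
    Pool.Agent.Y521.RN.t Pool.Agent.Y470.RN.t

end Pool.Agent.Y33.RN
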