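import Pool.Agent.Y33.RN.Stm

/-! # The base group: assembly (helper33) -/

set_option autoImplicit false

namespace Pool.Agent.Y33.RN

open Pool.Agent.TH54.BU Pool.Agent.Y33.SM Pool.Agent.H17R2

theorem base (h1 : S_RB1) (h2 : S_RB2) (h3 : S_RB3) (h4 : S_RB4) (h5 : S_RB5) (h6 : S_RB6)
    (h7 : S_RB7) (h8 : S_RB8) : S_RB := by
  obtain ⟨R, hR⟩ := h2
  obtain ⟨Θ, hΘ⟩ := h3 R
  obtain ⟨K4, h4⟩ := h4 Θ
  obtain ⟨K5, h5⟩ := h5 Θ
  obtain ⟨K8, h8⟩ := h8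
  obtain ⟨K, k1, k2, k3, k4⟩ : ∃ K : ℤ, 20 ≤ K ∧ K4 ≤ K ∧ K5 ≤ K ∧ K8 ≤ K :=
    ⟨max 20 (max K4 (max K5 K8)), by omega, by omega, by omega, by omega⟩
  obtain ⟨W, rw⟩ := h1 K k1
  obtain ⟨E, ce⟩ := hR W
  have jp := hΘ K W E rw ce
  obtain ⟨Q, ql⟩ := h4 K k2 W E R rw ce jp
  have str := h5 K k3 W E R Q rw ce jp ql
  obtain ⟨fb, tf⟩ := h6 K W E R Q rw ce ql
  obtain ⟨f, f1, f2, f3, f4⟩ := h7 K W E R Q rw ce ql
  refine ⟨F5 ⧸ W.toFam.N, inferInstance, Q, f, im W.toFam.N S0, ((FreeGroup.of 0 : F5) : F5 ⧸ _),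
    ((FreeGroup.of 2 : F5) : F5 ⧸ _), ((FreeGroup.of 1 : F5) : F5 ⧸ _), ?_⟩
  have hS0 : S0.Finite := by
    have : S0 ⊆ (Set.range fun j : Fin 5 => (FreeGroup.of j : F5)) ∪
        (Set.range fun j : Fin 5 => (FreeGroup.of j : F5)⁻¹) := by
      rintro g ⟨j, _, hg | hg⟩
      · exact Or.inl ⟨j, hg.symm⟩
      · exact Or.inr ⟨j, hg.symm⟩
    exact ((Set.finite_range _).union (Set.finite_range _)).subset this
  exact
    { nw :=
        { fb := fb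
          odd := fun g hg => tf g (isOfFinOrder_iff_pow_eq_one.2 ⟨2, by norm_num, hg⟩)
          com := fun a g ha hf _ => absurd (tf a hf) ha }
      fin := hS0.image _
      inv := by
        rintro _ ⟨g, ⟨j, hj, hg⟩, rfl⟩
        refine ⟨g⁻¹, ⟨j, hj, ?_⟩, rfl⟩
        rcases hg with rfl | rfl
        · exact Or.inr rfl
        · exact Or.inl (inv_inv _)
      one := f4
      ker := f3
      lip := f2
      ft := by
        rw [f1]
        simp [ft]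
      cS := ⟨FreeGroup.of 2, ⟨2, by decide, Or.inl rfl⟩, rfl⟩
      bS := ⟨FreeGroup.of 1, ⟨1, by decide, Or.inl rfl⟩, rfl⟩
      st := str 0 (by decide)
      sc := str 2 (by decide)
      sb := str 1 (by decide)
      nc := h8 K k4 W rw }

end Pool.Agent.Y33.RN
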