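import Pool.Agent.Y33.SM.Stm
import Pool.Agent.H17R2.TorsionFree

/-!
# Normal subgroups with empty Morse boundary: definitions (helper33, project RN, MP_b587bd_al)
-/

set_option autoImplicit false

namespace Pool.Agent.Y33.RN

open Pool.Agent.TH54.BU Pool.Agent.Y33.SM Pool.Agent.H17R2

/-- the word length with respect to the symmetric set `S` (it is `0` outside the subgroup
generated by `S`) -/
noncomputable def wl {G : Type} [Group G] (S : Set G) (g : G) : ℕ :=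
  sInf {k | ∃ l : List G, (∀ s ∈ l, s ∈ S) ∧ l.prod = g ∧ l.length = k}

/-- the image of `S` in the quotient -/
def im {G : Type} [Group G] (M : Subgroup G) (S : Set G) : Set (G ⧸ M) :=
  (fun g : G => (g : G ⧸ M)) '' S

/-- `w` is a nice hyperbolic length, and `f` is a homomorphism to the integers whose kernel is
generated by the finite symmetric set `S` -/
structure Rd {G : Type} [Group G] (w : GH G) (f : G →* Multiplicative ℤ) (S : Set G)
    (t c b : G) : Prop where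
  nw : NW w
  fin : S.Finite
  inv : ∀ s ∈ S, s⁻¹ ∈ S
  one : ∀ s ∈ S, w.len s ≤ 1
  ker : ∀ g : G, f g = 1 ↔ g ∈ Subgroup.closure S
  lip : ∀ g : G, (Multiplicative.toAdd (f g)).natAbs ≤ w.len g
  ft : f t = Multiplicative.ofAdd 1
  cS : c ∈ S
  bS : b ∈ S
  st : Str w t
  sc : Str w c
  sb : Str w b
  nc : NC c b

/-- a geodesic for the word length `wl S`, with steps in `S` -/
def HGeo {G : Type} [Group G] (S : Set G) (γ : ℕ → G) (l : ℕ) : Prop :=
  (∀ i, i < l → (γ i)⁻¹ * γ (i + 1) ∈ S) ∧ wl S ((γ 0)⁻¹ * γ l) = l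

/-- a detour with steps in `S`: a path `σ` of length at most `s` between two points of `γ`, with
quasi-geodesic constant `Λ`, which stays at distance at least `r` from some point of `γ` -/
def HDet {G : Type} [Group G] (S : Set G) (Λ r s : ℕ) (γ : ℕ → G) (l : ℕ) : Prop :=
  ∃ (i m j : ℕ) (σ : ℕ → G) (N : ℕ), i ≤ m ∧ m ≤ j ∧ j ≤ l ∧ j ≤ i + s ∧ N ≤ s ∧
    σ 0 = γ i ∧ σ N = γ j ∧ (∀ k, k < N → (σ k)⁻¹ * σ (k + 1) ∈ S) ∧
    (∀ k k', k ≤ k' → k' ≤ N → k' - k ≤ Λ * wl S ((σ k)⁻¹ * σ k')) ∧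
    ∀ k, k ≤ N → r ≤ wl S ((σ k)⁻¹ * γ m)

/-- `x0 = u v` where `v` has length about `5 K` or more, both for `w` and for `wl S`, and the
powers of `x0` form a quasi-geodesic -/
structure Hz {G : Type} [Group G] (w : GH G) (S : Set G) (C K : ℕ) (u x0 : G) : Prop where
  mu : u ∈ Subgroup.closure S
  mx : x0 ∈ Subgroup.closure S
  hK : wl S u = K
  a1 : w.len u + w.len (u⁻¹ * x0) ≤ w.len x0 + C
  a2 : wl S (u⁻¹ * x0) ≤ w.len (u⁻¹ * x0) + C
  a3 : 5 * K ≤ w.len (u⁻¹ * x0) + C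
  a4 : w.len (u⁻¹ * x0) ≤ 8 * K
  sup : w.Sup C x0

/-- the quotient of the length `w0` on `B ⧸ N` -/
noncomputable def qd {B : Type} [Group B] (w0 : GH B) (N : Subgroup B) [N.Normal]
    (u v : B ⧸ N) : ℕ :=
  sInf {k | ∃ g : B, (g : B ⧸ N) = u⁻¹ * v ∧ w0.len g = k}

/-- the properties of the quotients `B ⧸ N` of the sequence -/
def Lev {B : Type} [Group B] (w0 : GH B) (f0 : B →* Multiplicative ℤ) (S : Set B) (t c b : B)
    (N : Subgroup B) [N.Normal] : Prop :=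
  ∃ (w : GH (B ⧸ N)) (f : B ⧸ N →* Multiplicative ℤ), (∀ q, w.len q = qd w0 N 1 q) ∧
    (∀ g : B, f (g : B ⧸ N) = f0 g) ∧
    Rd w f (im N S) (t : B ⧸ N) (c : B ⧸ N) (b : B ⧸ N)

/-! ### The base group -/

/-- the free group with the basis `t, b, c, p, q` -/
abbrev F5 := FreeGroup (Fin 5)

/-- the exponent sum of the letter `t` -/
def ft : F5 →* Multiplicative ℤ :=
  FreeGroup.lift (fun i => if i = 0 then Multiplicative.ofAdd 1 else 1)

instance (W : Words (Fin 5)) : (W.toFam.N).Normal := W.toFam.N_normal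

/-- the relators `t ^ e * s * t ^ (-e) * h`, with `s` a letter different from `t` and with `h` a
word in the letters different from `t` -/
structure RW (K : ℤ) (W : Words (Fin 5)) : Prop where
  hK : W.K = K
  prim : W.Prim
  fin : W.B.Finite
  ne : W.B.Nonempty
  iso : ∀ b ∈ W.B, ∀ k : ℤ, (b.1 k).1 = (b.1 (k + 1)).1 → 3 ≤ ((b.1 k).1 : ℕ)
  cmp : ∀ b ∈ W.B, ∀ b' ∈ W.B, b.2 ≤ 3 * b'.2
  ft0 : ∀ b ∈ W.B, ∀ a a' : ℤ, (Multiplicative.toAdd (ft ((zw b.1 a)⁻¹ * zw b.1 a'))).natAbs ≤ 1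
  nrm : ∀ (i : Fin 5) (e : Bool), i ≠ 0 →
    ∃ h ∈ Subgroup.closure {g : F5 | ∃ j : Fin 5, j ≠ 0 ∧ g = FreeGroup.of j},
      (FreeGroup.mk [(0, e), (i, true), (0, !e)] : F5) * h ∈ W.toFam.N

/-- the steps of the cone metric: letters, and pairs of points of the same relator line -/
def Jm (W : Words (Fin 5)) (g : F5) : Prop :=
  FreeGroup.norm g ≤ 1 ∨ ∃ x ∈ W.toFam.fam, ∃ a b : ℤ, g = (x.1 a)⁻¹ * x.1 b

/-- `E` is the cone metric -/
structure CE (W : Words (Fin 5)) (E : GH F5) (R : ℕ) : Prop where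
  hD : E.D ≤ R
  one : ∀ g : F5, E.len g ≤ 1 ↔ Jm W g
  le : ∀ g : F5, E.len g ≤ FreeGroup.norm g
  near : ∀ (γ : ℕ → F5) (n : ℕ), E.Geod γ n → ∀ p : F5,
    fd (γ 0) p + fd p (γ n) = fd (γ 0) (γ n) → ∃ i ≤ n, E.d p (γ i) ≤ R

/-- geodesics of the cone metric with a large projection to a relator line run along it -/
def JP (W : Words (Fin 5)) (E : GH F5) (Θ : ℕ) : Prop :=
  ∀ x ∈ W.toFam.fam, ∀ (γ : ℕ → F5) (n : ℕ), E.Geod γ n →
    (Θ : ℤ) * x.2 ≤ W.K * |(fTree (Fin 5)).pr x.1 (γ 0) - (fTree (Fin 5)).pr x.1 (γ n)| →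
      ∃ k < n, ∃ a b : ℤ, γ k = x.1 a ∧ γ (k + 1) = x.1 b

/-- the letters different from `t`, and their inverses -/
def S0 : Set F5 := {g | ∃ j : Fin 5, j ≠ 0 ∧ (g = FreeGroup.of j ∨ g = (FreeGroup.of j)⁻¹)}

end Pool.Agent.Y33.RN
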