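import Pool.Agent.Y33.RN.Step
import Pool.Agent.Y33.RN.Base
import Pool.Agent.Y33.SM.Fin

/-! # Normal subgroups with empty Morse boundary: final assembly (helper33) -/

set_option autoImplicit false

namespace Pool.Agent.Y33.RN

open Pool.Agent.TH54.BU Pool.Agent.Y33.SM Pool.Agent.H17R2 Pool.Agent.H659R3.MorseLim
  Pool.Agent.Y33.LG

theorem frozen (hrt : S_RT) (h1 : S_FT1) (h2 : S_FT2) (h3 : S_FT3) :
    ∃ (G : Type) (_ : Group G) (H : Subgroup G),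
      H.Normal ∧ Infinite ↥H ∧ Group.FG ↥H ∧
      (∃ S : Finset G, Subgroup.closure (S : Set G) = ⊤ ∧
        ∃ γ : ℕ → G,
          (∀ m n : ℕ,
            (((SimpleGraph.fromRel (fun x y : G => x⁻¹ * y ∈ S)).dist (γ m) (γ n) : ℕ) : ℝ)
              = |(m : ℝ) - (n : ℝ)|) ∧
          ∃ N : ℝ → ℝ → ℝ, ∀ K C : ℝ, 1 ≤ K → 0 ≤ C →
            ∀ (L : ℕ) (q : ℕ → G),
              (∀ i j : ℕ, i ≤ L → j ≤ L →
                |(i : ℝ) - (j : ℝ)| / K - C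
                    ≤ (((SimpleGraph.fromRel (fun x y : G => x⁻¹ * y ∈ S)).dist (q i) (q j) : ℕ) : ℝ) ∧
                (((SimpleGraph.fromRel (fun x y : G => x⁻¹ * y ∈ S)).dist (q i) (q j) : ℕ) : ℝ)
                    ≤ K * |(i : ℝ) - (j : ℝ)| + C) →
              (∃ a : ℕ, q 0 = γ a) → (∃ b : ℕ, q L = γ b) →
              ∀ i : ℕ, i ≤ L → ∃ t : ℕ,
                (((SimpleGraph.fromRel (fun x y : G => x⁻¹ * y ∈ S)).dist (q i) (γ t) : ℕ) : ℝ)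
                  ≤ N K C) ∧
      (∀ S : Finset ↥H, Subgroup.closure (S : Set ↥H) = ⊤ →
        ¬ ∃ γ : ℕ → ↥H,
          (∀ m n : ℕ,
            (((SimpleGraph.fromRel (fun x y : ↥H => x⁻¹ * y ∈ S)).dist (γ m) (γ n) : ℕ) : ℝ)
              = |(m : ℝ) - (n : ℝ)|) ∧
          ∃ N : ℝ → ℝ → ℝ, ∀ K C : ℝ, 1 ≤ K → 0 ≤ C →
            ∀ (L : ℕ) (q : ℕ → ↥H),
              (∀ i j : ℕ, i ≤ L → j ≤ L →
                |(i : ℝ) - (j : ℝ)| / K - C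
                    ≤ (((SimpleGraph.fromRel (fun x y : ↥H => x⁻¹ * y ∈ S)).dist (q i) (q j) : ℕ) : ℝ) ∧
                (((SimpleGraph.fromRel (fun x y : ↥H => x⁻¹ * y ∈ S)).dist (q i) (q j) : ℕ) : ℝ)
                    ≤ K * |(i : ℝ) - (j : ℝ)| + C) →
              (∃ a : ℕ, q 0 = γ a) → (∃ b : ℕ, q L = γ b) →
              ∀ i : ℕ, i ≤ L → ∃ t : ℕ,
                (((SimpleGraph.fromRel (fun x y : ↥H => x⁻¹ * y ∈ S)).dist (q i) (γ t) : ℕ) : ℝ)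
                  ≤ N K C) := by
  obtain ⟨G, _, A, S, t, Λ, hN, hI, hf, hS, ht, hc, hd⟩ := hrt
  obtain ⟨T, hT, γ, g1, g2⟩ := h1 G A t ht hc
  obtain ⟨AH, hAH⟩ := h2 G S Λ hf hS hd
  refine ⟨G, inferInstance, Subgroup.closure S, hN, hI, ?_, ⟨T, hT, γ, g1, g2⟩, ?_⟩
  · exact ⟨⟨AH.finite.toFinset, by rw [Set.Finite.coe_toFinset]; exact AH.gen⟩⟩
  · intro T' hT'
    exact h3 _ AH hAH T' hT'

end Pool.Agent.Y33.RN
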