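import Pool.Agent.Y33.RN.Wl
import Pool.Agent.Y33.RN.Stm

/-! # The subgroup generated by `S` is Morse limited (helper33) -/

set_option autoImplicit false

namespace Pool.Agent.Y33.RN.FT2

open Pool.Agent.TH54.BU Pool.Agent.Y33.SM Pool.Agent.Y33.RN Pool.Agent.H659R3.MorseLim
  Pool.Agent.Y33.LG

variable {G : Type} [Group G] {S : Set G}

/-- the generating set `S` of the subgroup generated by `S` -/
def fg (hfin : S.Finite) : FinGen (Subgroup.closure S) where
  S := {x | (x : G) ∈ S}
  finite := hfin.preimage (Subtype.val_injective.injOn)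
  gen := Subgroup.closure_closure_coe_preimage

theorem up {l : List G} (h : ∀ s ∈ l, s ∈ S) :
    ∃ l' : List (Subgroup.closure S), (∀ s ∈ l', (s : G) ∈ S) ∧ ((l'.prod : Subgroup.closure S) : G)
      = l.prod ∧ l'.length = l.length := by
  induction l with
  | nil => exact ⟨[], by simp, by simp, rfl⟩
  | cons a l ih =>
    obtain ⟨l', h1, h2, h3⟩ := ih (fun s hs => h s (List.mem_cons_of_mem _ hs))
    refine ⟨⟨a, Subgroup.subset_closure (h a List.mem_cons_self)⟩ :: l', ?_, ?_, ?_⟩
    · intro s hs
      rcases List.mem_cons.1 hs with rfl | h'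
      · exact h a List.mem_cons_self
      · exact h1 s h'
    · rw [List.prod_cons, List.prod_cons, ← h2]
      rfl
    · rw [List.length_cons, List.length_cons, h3]

theorem len_eq (hfin : S.Finite) (hS : ∀ s ∈ S, s⁻¹ ∈ S) (x : Subgroup.closure S) :
    (fg hfin).len x = wl S (x : G) := by
  refine le_antisymm ?_ ?_
  · obtain ⟨l, h1, h2, h3⟩ := exists_min hS x.2
    obtain ⟨l', k1, k2, k3⟩ := up h1
    rw [← h3, ← k3]
    refine (fg hfin).len_le' (fun y hy => Or.inl (k1 y hy)) ?_
    exact Subtype.ext (k2.trans h2)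
  · obtain ⟨l, h1, h2, h3⟩ := (fg hfin).len_spec x
    rw [← h1, ← h3]
    have := wl_le (S := S) (l := l.map (Subgroup.closure S).subtype) (by
      intro s hs
      obtain ⟨y, hy, rfl⟩ := List.mem_map.1 hs
      rcases h2 y hy with h | h
      · exact h
      · have := hS _ h
        simpa using this)
    rw [List.length_map] at this
    rw [List.prod_hom l (Subgroup.closure S).subtype] at this
    exact this

theorem dist_eq (hfin : S.Finite) (hS : ∀ s ∈ S, s⁻¹ ∈ S) (x y : Subgroup.closure S) :
    (fg hfin).dist x y = wl S ((x : G)⁻¹ * y) := by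
  rw [FinGen.dist, len_eq hfin hS]
  rfl

theorem t (hml : S_ML) : S_FT2 := by
  intro G _ S Λ hfin hS hdet
  refine ⟨fg hfin, hml _ (fg hfin) Λ ?_⟩
  intro r
  obtain ⟨s, hs⟩ := hdet r
  refine ⟨s, fun γ l h1 h2 h3 => ?_⟩
  have hle : ∀ a k : ℕ, a + k ≤ l → (fg hfin).dist (γ a) (γ (a + k)) ≤ k := by
    intro a k
    induction k with
    | zero => intro _; simp
    | succ k ih =>
      intro hk
      have i1 := ih (by omega)
      have i2 := h1 (a + k) (by omega)
      have i3 := (fg hfin).dist_triangle (γ a) (γ (a + k)) (γ (a + k + 1))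
      show (fg hfin).dist (γ a) (γ (a + k + 1)) ≤ k + 1
      omega
  have hgeo : HGeo S (fun i => (γ i : G)) l := by
    refine ⟨?_, ?_⟩
    · intro i hi
      have i1 := hle 0 i (by omega)
      have i2 := hle (i + 1) (l - (i + 1)) (by omega)
      rw [show i + 1 + (l - (i + 1)) = l by omega] at i2
      rw [zero_add] at i1
      have i3 := (fg hfin).dist_triangle (γ 0) (γ i) (γ l)
      have i4 := (fg hfin).dist_triangle (γ i) (γ (i + 1)) (γ l)
      have i5 := h1 i hi
      have i6 : (fg hfin).len ((γ i)⁻¹ * γ (i + 1)) = 1 := by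
        show (fg hfin).dist (γ i) (γ (i + 1)) = 1
        omega
      rcases (fg hfin).gen_of_len i6 with h | h
      · exact h
      · have := hS _ h
        simpa using this
    · have h2' := h2
      rw [dist_eq hfin hS] at h2'
      exact h2'
  obtain ⟨i, m, j, σ, N, k1, k2, k3, k4, k5, k6, k7, k8, k9, k10⟩ := hs _ l hgeo h3
  have hmem : ∀ k, k ≤ N → σ k ∈ Subgroup.closure S := by
    intro k
    induction k with
    | zero => intro _; rw [k6]; exact (γ i).2
    | succ k ih =>
      intro hk
      have := Subgroup.mul_mem _ (ih (by omega)) (Subgroup.subset_closure (k8 k (by omega)))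
      rwa [mul_inv_cancel_left] at this
  classical
  have hτ : ∀ k, k ≤ N → (((if h : σ k ∈ Subgroup.closure S then ⟨σ k, h⟩ else 1 :
      Subgroup.closure S) : G)) = σ k := by
    intro k hk
    rw [dif_pos (hmem k hk)]
  refine ⟨i, m, j, fun k => if h : σ k ∈ Subgroup.closure S then ⟨σ k, h⟩ else 1, N, k1, k2, k3, k4,
    k5, ?_, ?_, ?_, ?_, ?_⟩
  · exact Subtype.ext ((hτ 0 (by omega)).trans k6)
  · exact Subtype.ext ((hτ N le_rfl).trans k7)
  · intro k hk
    rw [FinGen.dist]
    refine (fg hfin).len_gen (Or.inl ?_)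
    have := k8 k hk
    rw [← hτ k (by omega), ← hτ (k + 1) (by omega)] at this
    exact this
  · intro k k' hkk hk'
    rw [dist_eq hfin hS, hτ k (by omega), hτ k' hk']
    exact k9 k k' hkk hk'
  · intro k hk
    rw [dist_eq hfin hS, hτ k hk]
    exact k10 k hk

end Pool.Agent.Y33.RN.FT2
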