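import Pool.Agent.Y33.RN.Stm
import Pool.Agent.Y33.LG.Real

/-! # Morse limited groups have no Morse rays (helper33) -/

set_option autoImplicit false

namespace Pool.Agent.Y33.RN.FT3

open Pool.Agent.Y33.SM Pool.Agent.Y33.RN Pool.Agent.H659R3.MorseLim Pool.Agent.Y33.LG

theorem t (h0 : S_FT0) : S_FT3 := by
  intro G _ A hA T hT
  rintro ⟨γ, hray, N, hN⟩
  obtain ⟨B, hBT⟩ : ∃ B : FinGen G, B.S = (T : Set G) := ⟨⟨T, T.finite_toSet, hT⟩, rfl⟩
  have hB : MorseLimited (Cay B) := MorseLimited.of_qi' (cay_qi B A) hA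
  have hd := h0 G T B hBT
  unfold GRay at hray
  simp only [hd] at hray hN
  set M : Pool.Agent.Y33.LG.Gauge := fun lam eps =>
    Real.toNNReal (N (mOf lam eps) (mOf lam eps) + (lam + eps)) with hM
  obtain ⟨b, hb⟩ := hB M 1 1 le_rfl zero_le_one
  set g : ℝ → Cay B := fun s => γ ⌊s⌋₊ with hg
  have hgd : ∀ m n : ℕ, dist (α := Cay B) (γ m) (γ n) = |(m : ℝ) - n| := by
    intro m n
    rw [cay_dist]
    exact hray m n
  have hq : IsQuasiGeod 1 1 (Set.Ici (0 : ℝ)) g := by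
    intro s hs t ht
    have e : dist (g s) (g t) = |(⌊s⌋₊ : ℝ) - ⌊t⌋₊| := hgd _ _
    have a1 := Nat.floor_le (show (0 : ℝ) ≤ s from hs)
    have a2 := Nat.lt_floor_add_one s
    have a3 := Nat.floor_le (show (0 : ℝ) ≤ t from ht)
    have a4 := Nat.lt_floor_add_one t
    rw [e, inv_one, one_mul]
    constructor
    · have h1 := abs_sub_abs_le_abs_sub (s - t) ((⌊s⌋₊ : ℝ) - ⌊t⌋₊)
      have h2 : |s - t - ((⌊s⌋₊ : ℝ) - ⌊t⌋₊)| ≤ 1 := by
        rw [abs_le]; constructor <;> linarith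
      linarith
    · have h1 := abs_sub_abs_le_abs_sub ((⌊s⌋₊ : ℝ) - ⌊t⌋₊) (s - t)
      have h2 : |(⌊s⌋₊ : ℝ) - ⌊t⌋₊ - (s - t)| ≤ 1 := by
        rw [abs_le]; constructor <;> linarith
      linarith
  have hmorse : IsMorse M (Set.Ici (0 : ℝ)) g := by
    intro lam eps hlam heps c d hcd q hq hqc hqd u hu
    obtain ⟨s1', hs1, hs1'⟩ := hqc
    obtain ⟨t1', ht1, ht1'⟩ := hqd
    have hqd := disc_of_real (G := G) (A := B) (q := q) hlam heps hcd hq
    set m := mOf lam eps with hm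
    have hm1 : (1 : ℝ) ≤ m := by exact_mod_cast mOf_pos lam eps
    set L := ⌈d - c⌉₊ with hL
    have hdN : d ≤ c + L := by
      have := Nat.le_ceil (d - c)
      linarith
    have e0 : q (min (c + (0 : ℕ)) d) = γ ⌊s1'⌋₊ := by
      rw [Nat.cast_zero, add_zero, min_eq_left hcd, ← hs1']
    have eN : q (min (c + (L : ℕ)) d) = γ ⌊t1'⌋₊ := by
      rw [min_eq_right hdN, ← ht1']
    have hur : ⌊u - c⌋₊ ≤ L := by
      have h1 : (⌊u - c⌋₊ : ℝ) ≤ u - c := Nat.floor_le (by linarith [hu.1])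
      have h2 : (⌊u - c⌋₊ : ℝ) ≤ L := by linarith [hu.2]
      exact_mod_cast h2
    have hqg : ∀ i j : ℕ, i ≤ L → j ≤ L → i ≤ j →
        |(i : ℝ) - (j : ℝ)| / m - m ≤ (B.dist (q (min (c + i) d)) (q (min (c + j) d)) : ℝ) ∧
        (B.dist (q (min (c + i) d)) (q (min (c + j) d)) : ℝ) ≤ m * |(i : ℝ) - (j : ℝ)| + m := by
      intro i j hi hj hij
      obtain ⟨k, rfl⟩ := Nat.exists_eq_add_of_le hij
      obtain ⟨q1, q2⟩ := hqd i k hj
      have q1' : (B.dist (q (min (c + i) d)) (q (min (c + (i + k : ℕ)) d)) : ℝ) ≤ m * k + m := by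
        exact_mod_cast q1
      have q2' : (k : ℝ) ≤ m * (B.dist (q (min (c + i) d)) (q (min (c + (i + k : ℕ)) d)) : ℝ) +
          m := by
        exact_mod_cast q2
      have e : |(i : ℝ) - ((i + k : ℕ) : ℝ)| = k := by
        push_cast
        rw [abs_sub_comm, add_sub_cancel_left, abs_of_nonneg (Nat.cast_nonneg k)]
      rw [e]
      refine ⟨?_, q1'⟩
      rw [sub_le_iff_le_add, div_le_iff₀ (by linarith)]
      have : (m : ℝ) ≤ m * m := by nlinarith
      nlinarith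
    obtain ⟨v, hv⟩ := hN m m hm1 (by linarith) L (fun i => q (min (c + i) d)) (by
      intro i j hi hj
      rcases le_total i j with hij | hij
      · exact hqg i j hi hj hij
      · have := hqg j i hj hi hij
        rw [abs_sub_comm, B.dist_comm]
        exact this) ⟨_, e0⟩ ⟨_, eN⟩ ⌊u - c⌋₊ hur
    refine (Metric.infDist_le_dist_of_mem (s := g '' Set.Ici (0 : ℝ)) (y := g v)
      ⟨v, Set.mem_Ici.2 (Nat.cast_nonneg v), rfl⟩).trans ?_
    have hr1 : (⌊u - c⌋₊ : ℝ) ≤ u - c := Nat.floor_le (by linarith [hu.1])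
    have hr2 := Nat.lt_floor_add_one (u - c)
    have emin : min (c + (⌊u - c⌋₊ : ℝ)) d = c + ⌊u - c⌋₊ := min_eq_left (by linarith [hu.2])
    simp only [emin] at hv
    have h6 := (hq u hu (c + ⌊u - c⌋₊) ⟨by
      have : (0 : ℝ) ≤ ⌊u - c⌋₊ := Nat.cast_nonneg _
      linarith, by linarith [hu.2]⟩).2
    have h7 : dist (q u) (g v) ≤ dist (q u) (q (c + ⌊u - c⌋₊)) +
      dist (q (c + ⌊u - c⌋₊)) (g v) := dist_triangle _ _ _
    have h8 : dist (q (c + ⌊u - c⌋₊)) (g v) ≤ N m m := by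
      rw [cay_dist]
      have : g v = γ v := by simp only [hg, Nat.floor_natCast]
      rw [this]
      exact hv
    have h9 : |u - (c + ⌊u - c⌋₊)| ≤ 1 := by
      rw [abs_le]; constructor <;> linarith
    have h10 : lam * |u - (c + ⌊u - c⌋₊)| ≤ lam * 1 := by gcongr
    have h11 : N m m + (lam + eps) ≤ ((M lam eps : NNReal) : ℝ) := by
      simp only [hM]
      exact Real.le_coe_toNNReal _
    linarith
  have h1 := hb (Set.Ici 0) g Set.ordConnected_Ici hq hmorse 0 (Set.mem_Ici.2 le_rfl) (|b| + 1)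
    (Set.mem_Ici.2 (by have := abs_nonneg b; linarith))
  rw [zero_sub, abs_neg, abs_of_nonneg (by have := abs_nonneg b; linarith)] at h1
  have := le_abs_self b
  linarith

end Pool.Agent.Y33.RN.FT3
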