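import Pool.Agent.Y33.RN.Stm

/-! # Paths in cosets of the kernel have sublinear projections (helper33) -/

set_option autoImplicit false

namespace Pool.Agent.Y33.RN

open Pool.Agent.TH54.BU Pool.Agent.Y33.SM

theorem hpr : S_HPR := by
  intro G _ w t e k f pj ft lip q
  obtain ⟨D, hD⟩ : ∃ D, D = q * (e + 1) + 1 := ⟨_, rfl⟩
  refine ⟨q * (4 * e + 2 * D + 4), ?_⟩
  intro σ L hσ
  -- constancy of `f`
  have hf : ∀ i, i ≤ L → f (σ i) = f (σ 0) := by
    intro i
    induction i with
    | zero => intro _; rfl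
    | succ i ih =>
      intro hi
      rw [(hσ i (by omega)).2, ih (by omega)]
  obtain ⟨j0, hj0⟩ : ∃ j0 : ℤ, j0 = Multiplicative.toAdd (f (σ 0)) := ⟨_, rfl⟩
  have hfar : ∀ i, i ≤ L → (k (σ i) - j0).natAbs ≤ w.d (σ i) (t ^ k (σ i)) := by
    intro i hi
    have h1 := lip ((σ i)⁻¹ * t ^ k (σ i))
    have h2 : Multiplicative.toAdd (f ((σ i)⁻¹ * t ^ k (σ i))) = k (σ i) - j0 := by
      rw [map_mul, map_inv, map_zpow, ft, hf i hi, toAdd_mul, toAdd_inv, toAdd_zpow, toAdd_ofAdd,
        hj0, smul_eq_mul, mul_one]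
      ring
    rw [h2] at h1
    exact h1
  have hpath : ∀ i l, i + l ≤ L → w.d (σ i) (σ (i + l)) ≤ l := by
    intro i l
    induction l with
    | zero => intro _; rw [add_zero, w.d_self]
    | succ l ih =>
      intro hl
      have h1 := ih (by omega)
      have h2 := (hσ (i + l) (by omega)).1
      have h3 := w.d_tri (σ i) (σ (i + l)) (σ (i + l + 1))
      rw [← add_assoc]
      omega
  have hlip : ∀ i, i < L → (k (σ i) - k (σ (i + 1))).natAbs ≤ e + 1 := by
    intro i hi
    by_contra hcon
    have h1 := pj.proj (σ i) (σ (i + 1)) (by omega)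
    have h2 := (hσ i hi).1
    omega
  have hblock : ∀ i l, i + l ≤ L → l ≤ 2 * D → D ≤ (k (σ i) - j0).natAbs →
      D ≤ (k (σ (i + l)) - j0).natAbs → (k (σ i) - k (σ (i + l))).natAbs ≤ e := by
    intro i l hl h1 h2 h3
    by_contra hcon
    have h4 := pj.proj (σ i) (σ (i + l)) (by omega)
    have h5 := hfar i (by omega)
    have h6 := hfar (i + l) hl
    have h7 := hpath i l hl
    omega
  have hst : ∀ l i, i + l ≤ L → (∀ x, i ≤ x → x ≤ i + l → D ≤ (k (σ x) - j0).natAbs) →
      (k (σ i) - k (σ (i + l))).natAbs ≤ e * (l / (2 * D) + 1) := by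
    intro l
    induction l using Nat.strong_induction_on with
    | _ l ih =>
      intro i hl hx
      rcases Nat.lt_or_ge (2 * D) l with h | h
      · have h1 := hblock i (2 * D) (by omega) le_rfl (hx i le_rfl (by omega))
          (hx (i + 2 * D) (by omega) (by omega))
        have h2 := ih (l - 2 * D) (by omega) (i + 2 * D) (by omega)
          (fun x h1 h2 => hx x (by omega) (by omega))
        rw [show i + 2 * D + (l - 2 * D) = i + l by omega] at h2
        have h3 : l / (2 * D) = (l - 2 * D) / (2 * D) + 1 := by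
          rw [Nat.div_eq_sub_div (by omega) h.le]
        rw [h3, mul_add e ((l - 2 * D) / (2 * D) + 1) 1, mul_one]
        omega
      · have h1 := hblock i l hl h (hx i le_rfl (by omega)) (hx (i + l) (by omega) le_rfl)
        refine h1.trans ?_
        nlinarith [Nat.zero_le (l / (2 * D))]
  have hq : ∀ l, q * (e * (l / (2 * D) + 1)) ≤ l + q * e := by
    intro l
    have h1 : 2 * D * (l / (2 * D)) ≤ l := Nat.mul_div_le l (2 * D)
    have h2 : q * e ≤ D := by nlinarith
    have h3 : q * e * (l / (2 * D)) ≤ 2 * D * (l / (2 * D)) :=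
      Nat.mul_le_mul_right _ (by omega)
    nlinarith
  by_cases hin : ∃ i, i ≤ L ∧ (k (σ i) - j0).natAbs < D
  · classical
    have hex : ∃ i, i ≤ L ∧ (k (σ i) - j0).natAbs < D := hin
    obtain ⟨p, hp, hpm⟩ : ∃ p, (p ≤ L ∧ (k (σ p) - j0).natAbs < D) ∧
        ∀ x, x < p → ¬ (x ≤ L ∧ (k (σ x) - j0).natAbs < D) :=
      ⟨Nat.find hex, Nat.find_spec hex, fun x hx => Nat.find_min hex hx⟩
    have hex2 : ∃ y, y ≤ L ∧ (k (σ (L - y)) - j0).natAbs < D := by
      obtain ⟨i, h1, h2⟩ := hin
      exact ⟨L - i, by omega, by rwa [Nat.sub_sub_self h1]⟩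
    obtain ⟨y, hy, hym⟩ : ∃ p, (p ≤ L ∧ (k (σ (L - p)) - j0).natAbs < D) ∧
        ∀ x, x < p → ¬ (x ≤ L ∧ (k (σ (L - x)) - j0).natAbs < D) :=
      ⟨Nat.find hex2, Nat.find_spec hex2, fun x hx => Nat.find_min hex2 hx⟩
    -- the first part
    have a1 : q * (k (σ 0) - k (σ p)).natAbs ≤ p + q * e + q * (e + 1) := by
      rcases Nat.eq_zero_or_pos p with h | h
      · subst h
        simp
      · have h1 := hst (p - 1) 0 (by omega) (fun x _ h2 => by
          have := hpm x (by omega)
          by_contra hcon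
          exact this ⟨by omega, by omega⟩)
        rw [zero_add] at h1
        have h2 := hlip (p - 1) (by omega)
        rw [Nat.sub_add_cancel h] at h2
        have h3 : (k (σ 0) - k (σ p)).natAbs ≤ e * ((p - 1) / (2 * D) + 1) + (e + 1) := by omega
        have h4 := hq (p - 1)
        have h5 := Nat.mul_le_mul_left q h3
        rw [mul_add] at h5
        omega
    have a2 : q * (k (σ (L - y)) - k (σ L)).natAbs ≤ y + q * e + q * (e + 1) := by
      rcases Nat.eq_zero_or_pos y with h | h
      · subst h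
        simp
      · have h1 := hst (y - 1) (L - y + 1) (by omega) (fun x h1 h2 => by
          have := hym (L - x) (by omega)
          by_contra hcon
          refine this ⟨by omega, ?_⟩
          rw [Nat.sub_sub_self (by omega)]
          omega)
        rw [show L - y + 1 + (y - 1) = L by omega] at h1
        have h2 := hlip (L - y) (by omega)
        have h3 : (k (σ (L - y)) - k (σ L)).natAbs ≤ e * ((y - 1) / (2 * D) + 1) + (e + 1) := by
          omega
        have h4 := hq (y - 1)
        have h5 := Nat.mul_le_mul_left q h3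
        rw [mul_add] at h5
        omega
    have a3 : (k (σ p) - k (σ (L - y))).natAbs ≤ 2 * D := by omega
    have a4 : p ≤ L - y := by
      by_contra hcon
      exact hpm (L - y) (by omega) ⟨by omega, hy.2⟩
    have a5 : (k (σ 0) - k (σ L)).natAbs ≤ (k (σ 0) - k (σ p)).natAbs +
        (k (σ p) - k (σ (L - y))).natAbs + (k (σ (L - y)) - k (σ L)).natAbs := by omega
    have a6 := Nat.mul_le_mul_left q a5
    have a7 := Nat.mul_le_mul_left q a3
    rw [mul_add, mul_add] at a6
    have a8 : q * (4 * e + 2 * D + 4) = q * (2 * D) + 2 * (q * e) + 2 * (q * (e + 1)) + 2 * q := by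
      ring
    omega
  · push Not at hin
    have h1 := hst L 0 (by omega) (fun x _ h2 => hin x (by omega))
    rw [zero_add] at h1
    have h2 := Nat.mul_le_mul_left q h1
    have h3 := hq L
    have h4 : q * (4 * e + 2 * D + 4) = q * e + q * (3 * e + 2 * D + 4) := by ring
    omega

end Pool.Agent.Y33.RN
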