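import Pool.Agent.Y33.RN.Stm

/-! # Finite balls and torsion freeness of the base group (helper33) -/

set_option autoImplicit false

namespace Pool.Agent.Y33.RN.RB6

open Pool.Agent.TH54.BU Pool.Agent.Y33.SM Pool.Agent.H17R2 Pool.Agent.Y33.RN

theorem zw_mod (W : Words (Fin 5)) {b : (ℤ → Fin 5 × Bool) × ℤ} (hb : b ∈ W.B) (k : ℤ) :
    ((zw b.1 k : F5) : F5 ⧸ W.toFam.N) = ((zw b.1 (k % b.2) : F5) : F5 ⧸ W.toFam.N) := by
  have h1 : (zw b.1 b.2 : F5) ∈ W.toFam.N := by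
    rw [W.N_eq]
    exact Subgroup.subset_normalClosure ⟨b, hb, rfl⟩
  have h2 := zp_mul_period (fun k => (FreeGroup.mk [b.1 k] : F5)) b.2 (W.per_f b hb) (k / b.2)
    (k % b.2)
  change zw b.1 (k % b.2 + k / b.2 * b.2) = zw b.1 b.2 ^ (k / b.2) * zw b.1 (k % b.2) at h2
  rw [Int.emod_add_ediv_mul] at h2
  rw [h2, QuotientGroup.mk_mul, QuotientGroup.mk_zpow, (QuotientGroup.eq_one_iff _).2 h1, one_zpow,
    one_mul]

theorem fin_norm : {g : F5 | FreeGroup.norm g ≤ 1}.Finite := by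
  refine ((Set.finite_singleton (1 : F5)).union
    (Set.finite_range (fun a : Fin 5 × Bool => (FreeGroup.mk [a] : F5)))).subset ?_
  intro g hg
  have hg' : g.toWord.length ≤ 1 := hg
  rcases Nat.le_one_iff_eq_zero_or_eq_one.1 hg' with h | h
  · left
    rw [List.length_eq_zero_iff, FreeGroup.toWord_eq_nil_iff] at h
    exact h
  · right
    obtain ⟨a, ha⟩ := List.length_eq_one_iff.1 h
    exact ⟨a, by rw [← FreeGroup.mk_toWord (x := g), ha]⟩

theorem fin_one {K : ℤ} {W : Words (Fin 5)} (hW : RW K W) :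
    {q : F5 ⧸ W.toFam.N | ∃ g : F5, (g : F5 ⧸ W.toFam.N) = q ∧ Jm W g}.Finite := by
  have h1 : ((fun g : F5 => (g : F5 ⧸ W.toFam.N)) '' {g : F5 | FreeGroup.norm g ≤ 1}).Finite :=
    fin_norm.image _
  have h2 : (⋃ b ∈ W.B, Set.image2 (fun p q : ℤ => (((zw b.1 p)⁻¹ * zw b.1 q : F5) :
      F5 ⧸ W.toFam.N)) (Set.Ico 0 b.2) (Set.Ico 0 b.2)).Finite :=
    hW.fin.biUnion fun b _ => (Set.finite_Ico 0 b.2).image2 _ (Set.finite_Ico 0 b.2)
  refine (h1.union h2).subset ?_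
  rintro q ⟨g, rfl, hg | ⟨x, hx, a, c, hg⟩⟩
  · exact Or.inl ⟨g, hg, rfl⟩
  · right
    obtain ⟨b, hb, g', s, ε, rfl⟩ := hx
    have hL : 0 < b.2 := by
      have h3 := W.KL b hb
      have h4 := W.hK
      omega
    have e : g = (zw b.1 (s + sg ε * a))⁻¹ * zw b.1 (s + sg ε * c) := by
      rw [hg]
      show (g' * zw b.1 (s + sg ε * a))⁻¹ * (g' * zw b.1 (s + sg ε * c)) = _
      group
    refine Set.mem_iUnion₂.2 ⟨b, hb, (s + sg ε * a) % b.2, ⟨Int.emod_nonneg _ hL.ne',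
      Int.emod_lt_of_pos _ hL⟩, (s + sg ε * c) % b.2, ⟨Int.emod_nonneg _ hL.ne',
      Int.emod_lt_of_pos _ hL⟩, ?_⟩
    rw [e]
    simp only [QuotientGroup.mk_mul, QuotientGroup.mk_inv, ← zw_mod W hb]

theorem t : S_RB6 := by
  intro K W E R Q hW hE hQ
  have hN := W.toFam.N_normal
  have h1 : {q : F5 ⧸ W.toFam.N | Q.len q ≤ 1}.Finite := by
    refine (fin_one hW).subset ?_
    intro q hq
    obtain ⟨g, hg, hg'⟩ := hQ.lift q
    exact ⟨g, hg, (hE.one g).1 (hg'.le.trans hq)⟩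
  refine ⟨?_, ?_⟩
  · intro n
    induction n with
    | zero =>
      refine (Set.finite_singleton (1 : F5 ⧸ W.toFam.N)).subset ?_
      intro q hq
      exact Q.eq_one q (Nat.le_zero.1 hq)
    | succ n ih =>
      refine (Set.Finite.image2 (fun a b : F5 ⧸ W.toFam.N => a * b) ih h1).subset ?_
      intro q hq
      have hq' : Q.len q ≤ n + 1 := hq
      rcases Nat.lt_or_ge n (Q.len q) with h2 | h2
      · obtain ⟨h, h3, h4⟩ := Q.step q n h2.le
        refine ⟨h, h3.le, h⁻¹ * q, ?_, mul_inv_cancel_left h q⟩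
        show Q.len (h⁻¹ * q) ≤ 1
        omega
      · exact ⟨q, h2, 1, by show Q.len 1 ≤ 1; rw [Q.len_one]; omega, mul_one q⟩
  · intro q hq
    obtain ⟨g, rfl⟩ := QuotientGroup.mk_surjective q
    obtain ⟨n, hn, hn'⟩ := isOfFinOrder_iff_pow_eq_one.1 hq
    rw [← QuotientGroup.mk_pow, QuotientGroup.eq_one_iff] at hn'
    rw [QuotientGroup.eq_one_iff]
    exact W.torsion_free hW.prim n hn _ g le_rfl hn'

end Pool.Agent.Y33.RN.RB6
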