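import Pool.Agent.Y33.RN.Fin
import Pool.Agent.Y33.RN.Hpr
import Pool.Agent.Y33.RN.Ft2
import Pool.Agent.Y33.RN.Ft3
import Pool.Agent.Y33.RN.Rb6
import Pool.Agent.Y240.RN.Rb2
import Pool.Agent.Y584.RN.Rb3
import Pool.Agent.Y215.RN.RB4
import Pool.Agent.Y415.RN.RB7
import Pool.Agent.Y545.RN.HD2
import Pool.Agent.Y543.RN.Tow
import Pool.Agent.Y944.RN.FT0
import Pool.Agent.Y944.RN.FT1

/-! # Normal subgroups with empty Morse boundary: final theorem (helper33) -/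

set_option autoImplicit false

namespace Pool.Agent.Y33.RN

open Pool.Agent.TH54.BU Pool.Agent.Y33.SM Pool.Agent.H17R2 Pool.Agent.H659R3.MorseLim
  Pool.Agent.Y33.LG

theorem limit (rb1 : S_RB1) (rb5 : S_RB5) (rb8 : S_RB8) (cut2 : S_CUT2) (hcap : S_HCAP)
    (ring : S_RING) (hd1 : S_HD1) (rstf : S_RSTEP → S_RSTF) : S_RT := by
  have hl : S_LSX := Pool.Agent.Y96.SM.t Acy.t
  have hX : S_COMX := Pool.Agent.Y195.SM.Comx.t
  have hmin : S_MIN := Pool.Agent.Y688.SM.t0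
  have hov : S_OV := Pool.Agent.Y688.SM.t1
  have hstr : S_STR := Pool.Agent.Y688.SM.t2 hov
  have hs : S_RSTEP := step Pool.Agent.Y470.SM.tHYP hl
    (Pool.Agent.Y896.SM.Nice.t Pool.Agent.Y195.SM.t Pool.Agent.Y195.SM.Coma.t hX) hstr
    (Pool.Agent.Y26.SM.NCQ.t hmin hov) cut2 hcap ring hd1 Pool.Agent.Y545.RN.hd2
  exact Pool.Agent.Y543.RN.Tow.t (rstf hs) (base rb1 Pool.Agent.Y240.RN.t Pool.Agent.Y584.RN.rb3
    Pool.Agent.Y215.RN.RB4.t rb5 RB6.t Pool.Agent.Y415.RN.t rb8)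

theorem finalX (rb1 : S_RB1) (rb5 : S_RB5) (rb8 : S_RB8) (cut2 : S_CUT2) (hcap : S_HCAP)
    (ring : S_RING) (hd1 : S_HD1) (rstf : S_RSTEP → S_RSTF) :
    ∃ (G : Type) (_ : Group G) (H : Subgroup G),
      H.Normal ∧ Infinite ↥H ∧ Group.FG ↥H ∧
      (∃ S : Finset G, Subgroup.closure (S : Set G) = ⊤ ∧
        ∃ γ : ℕ → G,
          (∀ m n : ℕ,
            (((SimpleGraph.fromRel (fun x y : G => x⁻¹ * y ∈ S)).dist (γ m) (γ n) : ℕ) : ℝ)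
              = |(m : ℝ) - (n : ℝ)|) ∧
          ∃ N : ℝ → ℝ → ℝ, ∀ K C : ℝ, 1 ≤ K → 0 ≤ C →
            ∀ (L : ℕ) (q : ℕ → G),
              (∀ i j : ℕ, i ≤ L → j ≤ L →
                |(i : ℝ) - (j : ℝ)| / K - C
                    ≤ (((SimpleGraph.fromRel (fun x y : G => x⁻¹ * y ∈ S)).dist (q i) (q j) : ℕ) : ℝ) ∧
                (((SimpleGraph.fromRel (fun x y : G => x⁻¹ * y ∈ S)).dist (q i) (q j) : ℕ) : ℝ)
                    ≤ K * |(i : ℝ) - (j : ℝ)| + C) →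
              (∃ a : ℕ, q 0 = γ a) → (∃ b : ℕ, q L = γ b) →
              ∀ i : ℕ, i ≤ L → ∃ t : ℕ,
                (((SimpleGraph.fromRel (fun x y : G => x⁻¹ * y ∈ S)).dist (q i) (γ t) : ℕ) : ℝ)
                  ≤ N K C) ∧
      (∀ S : Finset ↥H, Subgroup.closure (S : Set ↥H) = ⊤ →
        ¬ ∃ γ : ℕ → ↥H,
          (∀ m n : ℕ,
            (((SimpleGraph.fromRel (fun x y : ↥H => x⁻¹ * y ∈ S)).dist (γ m) (γ n) : ℕ) : ℝ)
              = |(m : ℝ) - (n : ℝ)|) ∧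
          ∃ N : ℝ → ℝ → ℝ, ∀ K C : ℝ, 1 ≤ K → 0 ≤ C →
            ∀ (L : ℕ) (q : ℕ → ↥H),
              (∀ i j : ℕ, i ≤ L → j ≤ L →
                |(i : ℝ) - (j : ℝ)| / K - C
                    ≤ (((SimpleGraph.fromRel (fun x y : ↥H => x⁻¹ * y ∈ S)).dist (q i) (q j) : ℕ) : ℝ) ∧
                (((SimpleGraph.fromRel (fun x y : ↥H => x⁻¹ * y ∈ S)).dist (q i) (q j) : ℕ) : ℝ)
                    ≤ K * |(i : ℝ) - (j : ℝ)| + C) →
              (∃ a : ℕ, q 0 = γ a) → (∃ b : ℕ, q L = γ b) →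
              ∀ i : ℕ, i ≤ L → ∃ t : ℕ,
                (((SimpleGraph.fromRel (fun x y : ↥H => x⁻¹ * y ∈ S)).dist (q i) (γ t) : ℕ) : ℝ)
                  ≤ N K C) :=
  frozen (limit rb1 rb5 rb8 cut2 hcap ring hd1 rstf) (Pool.Agent.Y944.RN.FT1.t Pool.Agent.Y944.RN.FT0.t)
    (FT2.t Pool.Agent.Y375.SM.ML.t) (FT3.t Pool.Agent.Y944.RN.FT0.t)

end Pool.Agent.Y33.RN
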