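import Pool.Agent.Y33.RN.Wl
import Pool.Agent.Y33.RN.Stm
import Pool.Agent.Y33.SM.Asm2

/-! # The step: assembly (helper33) -/

set_option autoImplicit false

namespace Pool.Agent.Y33.RN

open Pool.Agent.TH54.BU Pool.Agent.Y33.SM

theorem step (hy : S_HYP) (hl : S_LSX) (hnice : S_NICE) (hstr : S_STR) (hnc : S_NCQ)
    (hcut : S_CUT2) (hcap : S_HCAP) (hring : S_RING) (hd1 : S_HD1) (hd2 : S_HD2) : S_RSTEP := by
  obtain ⟨n0, hy⟩ := hy
  obtain ⟨n, hn⟩ : ∃ n, n = 2 * (n0 + 10 ^ 12) + 1 := ⟨_, rfl⟩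
  refine ⟨1000 * n, ?_⟩
  intro G _ w f S t c b rd C r
  have hS := rd.inv
  obtain ⟨e, k, pj⟩ := exists_Pj w rd.st
  obtain ⟨Ch, hC⟩ := hcap G w f S t c b e k rd pj
  obtain ⟨D0, κu, q, hcut'⟩ := hcut G w t e k C r rd.nw rd.st pj
  obtain ⟨κl, hl'⟩ := hl G w rd.nw
  obtain ⟨Kh, hK⟩ := hC (q + 1) (by omega)
  obtain ⟨K1, hK1⟩ := hd1 Ch
  refine ⟨D0, fun R => ?_⟩
  obtain ⟨K2, hK2⟩ := hd2 R n (by omega)
  obtain ⟨K, hKK⟩ : ∃ K, K = Kh + K1 + K2 + κu + κl + 1000 * (w.D + 1) + R + 1 := ⟨_, rfl⟩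
  obtain ⟨κ, hκ⟩ : ∃ κ, κ = 2 * K := ⟨_, rfl⟩
  have hnbig : 10 ^ 12 ≤ n := by omega
  have hnκ : 10 ^ 12 * κ ≤ n * κ := Nat.mul_le_mul_right _ hnbig
  let X : Set G := {x | Prim x ∧ w.CMin x ∧ κ ≤ w.len x ∧ w.len x ≤ 5 * κ ∧
    HF k (K / (q + 1)) x ∧ f x = 1}
  obtain ⟨F, L, FD, resc, stab, acy, mem, cov⟩ := hl' κ (by omega) X
    (fun x hx => ⟨hx.1, hx.2.1, hx.2.2.1, hx.2.2.2.1⟩)
  have hthr : L.thr = 472408 := rfl
  have fil := L.fil (n := n) (by rw [hthr]; omega)
  obtain ⟨M, hM⟩ : ∃ M, M = Subgroup.normalClosure (Set.range fun i => L.x i ^ n) := ⟨_, rfl⟩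
  have hMf : ∀ m ∈ M, f m = 1 := by
    intro m hm
    rw [hM] at hm
    have h1 : Subgroup.normalClosure (Set.range fun i => L.x i ^ n) ≤ f.ker := by
      refine Subgroup.normalClosure_le_normal ?_
      rintro _ ⟨i, rfl⟩
      show f (L.x i ^ n) = 1
      rw [map_pow, (mem i).2.2.2.2.2, one_pow]
    exact h1 hm
  rw [← hM] at fil
  haveI hN : M.Normal := fil.normal
  have ctx : Ctx w κ n L X M :=
    { nw := rd.nw
      hκ := by omega
      hn := hnbig
      odd := ⟨n0 + 10 ^ 12, by omega⟩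
      FD := FD
      resc := resc
      stab := stab
      acy := acy
      mem := mem
      cov := cov
      prim := fun x hx => hx.1
      cmin := fun x hx => hx.2.1
      lo := fun x hx => hx.2.2.1
      hi := fun x hx => hx.2.2.2.1
      fil := fil }
  obtain ⟨w', ql⟩ := hy G w κ n F L X M (by omega) ctx
  obtain ⟨hst1, hst2, hst3⟩ := hstr G w κ n F L X M ctx w' ql
  have hni := hnice G w κ n F L X M ctx
  have hone : ∀ s ∈ im M S, w'.len s ≤ 1 := by
    rintro _ ⟨s, hs, rfl⟩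
    exact (ql.le s).trans (rd.one s hs)
  let f' : G ⧸ M →* Multiplicative ℤ := QuotientGroup.lift M f hMf
  have hf' : ∀ g : G, f' (g : G ⧸ M) = f g := fun g => rfl
  refine ⟨M, hN, w', f', K + 20 * n * K, ql, hf', ?_, ?_, ?_, ?_⟩
  · exact
      { nw := ⟨ql.fb rd.nw.fb, hni.1, hni.2⟩
        fin := rd.fin.image _
        inv := im_inv hS
        one := hone
        ker := by
          intro g'
          obtain ⟨g, rfl⟩ := QuotientGroup.mk_surjective g'
          rw [hf', rd.ker]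
          refine ⟨mem_im, ?_⟩
          rw [closure_im]
          rintro ⟨h, hh, hhg⟩
          have h1 : (h : G ⧸ M) = (g : G ⧸ M) := hhg
          have h2 : f g = f h := by rw [← hf', ← hf', h1]
          rw [← rd.ker, h2, rd.ker]
          exact hh
        lip := by
          intro g'
          obtain ⟨g, h1, h2⟩ := ql.lift g'
          rw [← h1, hf', h1, ← h2]
          exact rd.lip g
        ft := by rw [hf', rd.ft]
        cS := ⟨c, rd.cS, rfl⟩
        bS := ⟨b, rd.bS, rfl⟩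
        st := hst1 t rd.st
        sc := hst1 c rd.sc
        sb := hst1 b rd.sb
        nc := hnc G w κ n F L X M ctx w' ql c b rd.sc rd.sb rd.nc }
  · intro g hg
    exact hst3 g (by omega)
  · refine hcut' κ (by omega) (K / (q + 1)) n F L X M ?_ ctx (fun x hx => hx.2.2.2.2.1) w' ql
    have := Nat.div_mul_le_self K (q + 1)
    nlinarith [Nat.zero_le (K / (q + 1))]
  · intro γ' l hγ' hl
    have hKl : K ≤ l := by omega
    have hd := hγ'.eq (im_inv hS) (Nat.zero_le K) hKl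
    rw [Nat.sub_zero] at hd
    obtain ⟨γ, hγ1, hγ2⟩ := lift_path γ' K (fun i hi => hγ'.1 i (by omega))
    have hp := path_mem hγ2 0 K (by omega)
    rw [zero_add] at hp
    obtain ⟨u, hu⟩ : ∃ u, u = (γ 0)⁻¹ * γ K := ⟨_, rfl⟩
    rw [← hu] at hp
    have hu' : (u : G ⧸ M) = (γ' 0)⁻¹ * γ' K := by
      rw [hu, QuotientGroup.mk_mul, QuotientGroup.mk_inv, hγ1 0 (Nat.zero_le _), hγ1 K le_rfl]
    have hwu : wl S u = K := by
      refine le_antisymm hp.2 ?_
      have := wl_im_le (M := M) hS hp.1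
      rwa [hu', hd] at this
    obtain ⟨x0, x, v, e1, lv, prx, cmx, lo, hi, hfx, hz⟩ := hK K (by omega) u hp.1 hwu
    have hfx0 : f x0 = 1 := (rd.ker x0).2 hz.mx
    have hfx1 : f x = 1 := by
      have : f x0 = f v * f x * (f v)⁻¹ := by rw [e1]; simp
      rw [hfx0, mul_comm (f v), mul_inv_cancel_right] at this
      exact this.symm
    have hxX : x ∈ X := ⟨prx, cmx, by omega, by omega, hfx, hfx1⟩
    have hxn : x ^ n ∈ M := by
      obtain ⟨i, u', hxi⟩ := cov x hxX
      have h1 := fil.rot i u' 1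
      rw [LS.rt, mul_one, zpow_natCast] at h1
      rcases hxi with h | h
      · rw [h, conj_pow]
        exact h1
      · rw [h, conj_pow, inv_pow]
        have h2 := Subgroup.inv_mem _ h1
        rwa [show (u' * L.x i ^ n * u'⁻¹)⁻¹ = u' * (L.x i ^ n)⁻¹ * u'⁻¹ by group] at h2
    have hx0n : x0 ^ n ∈ M := by
      rw [e1, conj_pow]
      exact hN.conj_mem _ hxn v
    obtain ⟨σ, N, s1, s2, s3, s4, s5, s6, s7⟩ := hK1 K n G w S M w' u x0 (by omega) (by omega) ql
      (fun s hs => ⟨hS s hs, rd.one s hs⟩) hz hx0n (by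
        intro m hm hm1
        have := hst2 m hm hm1
        have h2 : n * κ = 2 * (n * K) := by rw [hκ]; ring
        omega) (by
        intro g1 g2 j h1 h2 h3
        have i1 := w.len_mul g1 v
        have i2 := w.len_mul v⁻¹ g2
        rw [w.len_inv] at i2
        have := hring G w κ n F L X M ctx w' ql x hxX (g1 * v) (v⁻¹ * g2) j (by omega) (by omega)
          h3
        have e2 : g1 * v * x ^ j * (v⁻¹ * g2) = g1 * x0 ^ j * g2 := by
          rw [e1, conj_zpow]
          group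
        rw [e2] at this
        refine this.imp id (fun h => ?_)
        have h2 : n * κ = 2 * (n * K) := by rw [hκ]; ring
        omega)
    obtain ⟨i, m, j, σ', N', j1, j2, j3, j4, j5, j6⟩ := hK2 K (G ⧸ M) (im M S) (u : G ⧸ M) σ N
      (by omega) (im_inv hS) s1 s2 s3 s4 s5 s6 s7 γ' (fun i hi => hγ'.1 i (by omega)) hu'.symm
    exact ⟨i, m, j, σ', N', j1, j2, by omega, by omega, by omega, j6⟩

end Pool.Agent.Y33.RN
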